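import Mathlib
import Pool.Agent.H15.TEmb2

namespace Pool.Agent.Results.MP_5b7d0d_gt.NotEmbedded
open Pool.Agent.H15.TEmb unitInterval Set

/-- The Cantor cube `{0,1}^ι` as a subspace of the Tychonoff cube `[0,1]^ι`. -/
def cantor (ι : Type) : Set (ι → I) := {x | ∀ a, x a = 0 ∨ x a = 1}

/-- An index set of order type `ω_1`. -/
abbrev Omega1 : Type := (Ordinal.omega 1).ToType

theorem unc : Uncountable Omega1 := by
  rw [← Cardinal.aleph0_lt_mk_iff, Cardinal.mk_toType, Ordinal.card_omega]
  exact Cardinal.aleph0_lt_aleph_one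

theorem main (ι : Type) [Uncountable ι] : ¬ TEmb (Subtype.val : cantor ι → ι → I) := by
  classical
  have hc : IsClosed (cantor ι) := by
    unfold cantor
    rw [ofPred_forall]
    exact isClosed_iInter fun a => (isClosed_eq (continuous_apply a) continuous_const).union
      (isClosed_eq (continuous_apply a) continuous_const)
  have : CompactSpace (cantor ι) := isCompact_iff_compactSpace.1 hc.isCompact
  refine not_temb _ fun A hA => ?_
  obtain ⟨a, ha⟩ : ∃ a, a ∉ A := by
    by_contra h
    push Not at h
    exact not_countable_univ (hA.mono fun a _ => h a)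
  have h1 : Continuous fun x : cantor ι => x.1 a := (continuous_apply a).comp continuous_subtype_val
  have h2 : IsClopen {x : cantor ι | x.1 a = 1} := by
    refine ⟨isClosed_eq h1 continuous_const, ?_⟩
    have : {x : cantor ι | x.1 a = 1} = {x : cantor ι | x.1 a = 0}ᶜ := by
      ext x
      rcases x.2 a with h | h <;> simp [h]
    rw [this]
    exact (isClosed_eq h1 continuous_const).isOpen_compl
  refine ⟨⟨_, (continuous_boolIndicator_iff_isClopen _).2 h2⟩, ⟨fun _ => 0, fun _ => Or.inl rfl⟩,
    ⟨fun b => if b = a then 1 else 0, fun b => by by_cases h : b = a <;> simp [h]⟩, ?_, ?_, ?_⟩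
  · exact (Set.notMem_iff_boolIndicator _ _).1 (by simp)
  · exact (Set.mem_iff_boolIndicator _ _).1 (by simp)
  · intro b hb
    have : b ≠ a := fun h => ha (h ▸ hb)
    simp [this]

/-- The Cantor cube of uncountable weight, in particular of weight `ω_1`, is not t-embedded in
the Tychonoff cube. -/
theorem result :
    (∀ (ι : Type) [Uncountable ι], ¬ TEmb (Subtype.val : cantor ι → ι → I)) ∧
      ¬ TEmb (Subtype.val : cantor Omega1 → Omega1 → I) :=
  ⟨main, @main _ unc⟩

end Pool.Agent.Results.MP_5b7d0d_gt.NotEmbedded
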